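import Mathlib
import Pool.Agent.H653R2.ProjAlg

set_option autoImplicit false

namespace Pool.Agent.Results.MP_71be7b_lc.NumberOfTypes

open Set Pool.Agent.H653R2.ProjAlg

theorem isomorphic_refl (F : Set (Set Plane)) : Isomorphic F F :=
  ⟨id, bijOn_id F, fun _ _ => rfl, fun _ _ _ _ => rfl, fun _ _ => rfl, fun _ _ => rfl,
    fun _ _ _ _ _ _ => rfl⟩

theorem isomorphic_trans {F G H : Set (Set Plane)} (hF : IsProjAlg F) (h1 : Isomorphic F G)
    (h2 : Isomorphic G H) : Isomorphic F H := by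
  obtain ⟨φ, hφ⟩ := h1
  obtain ⟨ψ, hψ⟩ := h2
  have hm : ∀ S ∈ F, φ S ∈ G := fun S hS => hφ.bij.mapsTo hS
  refine ⟨fun S => ψ (φ S), hψ.bij.comp hφ.bij, ?_, ?_, ?_, ?_, ?_⟩
  · intro S hS
    rw [hφ.compl S hS, hψ.compl _ (hm S hS)]
  · intro S hS T hT
    rw [hφ.union S hS T hT, hψ.union _ (hm S hS) _ (hm T hT)]
  · intro S hS
    rw [hφ.projX S hS, hψ.projX _ (hm S hS)]
  · intro S hS
    rw [hφ.projY S hS, hψ.projY _ (hm S hS)]
  · intro A hA B hB hAX hBY
    have hA2 : φ A ⊆ XAxis := by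
      have : A ∩ XAxis = A := inter_eq_left.2 hAX
      rw [← this, hφ.map_inter hF hA hF.XAxis_mem, hφ.map_XAxis hF]
      exact inter_subset_right
    have hB2 : φ B ⊆ YAxis := by
      have : B ∩ YAxis = B := inter_eq_left.2 hBY
      rw [← this, hφ.map_inter hF hB hF.YAxis_mem, hφ.map_YAxis hF]
      exact inter_subset_right
    rw [hφ.tensor A hA B hB hAX hBY, hψ.tensor _ (hm A hA) _ (hm B hB) hA2 hB2]

theorem isomorphic_symm {F G : Set (Set Plane)} (hF : IsProjAlg F) (h : Isomorphic F G) :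
    Isomorphic G F := by
  obtain ⟨φ, hφ⟩ := h
  have hinv := hφ.bij.invOn_invFunOn
  set ψ := Function.invFunOn φ F with hψ
  have hg : BijOn ψ G F := hφ.bij.symm hinv.symm
  have k1 : ∀ S ∈ F, ψ (φ S) = S := fun S hS => hinv.1 hS
  have k2 : ∀ S ∈ G, φ (ψ S) = S := fun S hS => hinv.2 hS
  have hm : ∀ S ∈ G, ψ S ∈ F := fun S hS => hg.mapsTo hS
  refine ⟨ψ, hg, ?_, ?_, ?_, ?_, ?_⟩
  · intro S hS
    conv_lhs => rw [← k2 S hS]
    rw [← hφ.compl _ (hm S hS), k1 _ (hF.compl _ (hm S hS))]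
  · intro S hS T hT
    conv_lhs => rw [← k2 S hS, ← k2 T hT]
    rw [← hφ.union _ (hm S hS) _ (hm T hT), k1 _ (hF.union _ (hm S hS) _ (hm T hT))]
  · intro S hS
    conv_lhs => rw [← k2 S hS]
    rw [← hφ.projX _ (hm S hS), k1 _ (hF.projX _ (hm S hS))]
  · intro S hS
    conv_lhs => rw [← k2 S hS]
    rw [← hφ.projY _ (hm S hS), k1 _ (hF.projY _ (hm S hS))]
  · intro A hA B hB _ _
    conv_lhs => rw [← k2 A hA, ← k2 B hB]
    rw [← hφ.map_tensor hF (hm A hA) (hm B hB), k1 _ (hF.tensor' (hm A hA) (hm B hB))]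

/-- The projective algebras generated by `k` subsets of the plane. -/
abbrev KGenerated (k : ℕ) : Type :=
  {F : Set (Set Plane) // ∃ S : Fin k → Set Plane, F = gen (range S)}

theorem KGenerated.isProjAlg {k : ℕ} (F : KGenerated k) : IsProjAlg F.1 := by
  obtain ⟨S, hS⟩ := F.2
  rw [hS]; exact gen_isProjAlg _

/-- Isomorphism, as an equivalence relation on the projective algebras generated by `k` subsets
of the plane. -/
def isoSetoid (k : ℕ) : Setoid (KGenerated k) where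
  r F G := Isomorphic F.1 G.1
  iseqv := ⟨fun F => isomorphic_refl F.1, fun {F _} h => isomorphic_symm F.isProjAlg h,
    fun {F _ _} h1 h2 => isomorphic_trans F.isProjAlg h1 h2⟩

/-- the multiplication tables of an enumerated algebra -/
def table (e : ℕ → Set Plane) : Set (Fin 6 × ℕ × ℕ × ℕ) :=
  {q | (q.1 = 0 ∧ e q.2.1 = e q.2.2.1) ∨ (q.1 = 1 ∧ e q.2.2.1 = (e q.2.1)ᶜ) ∨
    (q.1 = 2 ∧ e q.2.2.2 = e q.2.1 ∪ e q.2.2.1) ∨ (q.1 = 3 ∧ e q.2.2.1 = projX (e q.2.1)) ∨
    (q.1 = 4 ∧ e q.2.2.1 = projY (e q.2.1)) ∨ (q.1 = 5 ∧ e q.2.2.2 = tensor (e q.2.1) (e q.2.2.1))}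

theorem iso_of_table {e e' : ℕ → Set Plane} (hF : IsProjAlg (range e))
    (h : table e = table e') : Isomorphic (range e) (range e') := by
  classical
  have h0 : ∀ i j, e i = e j ↔ e' i = e' j := by
    intro i j
    have := Set.ext_iff.1 h (0, i, j, 0)
    simpa [table] using this
  have h1 : ∀ i j, e j = (e i)ᶜ ↔ e' j = (e' i)ᶜ := by
    intro i j
    have := Set.ext_iff.1 h (1, i, j, 0)
    simpa [table] using this
  have h2 : ∀ i j l, e l = e i ∪ e j ↔ e' l = e' i ∪ e' j := by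
    intro i j l
    have := Set.ext_iff.1 h (2, i, j, l)
    simpa [table] using this
  have h3 : ∀ i j, e j = projX (e i) ↔ e' j = projX (e' i) := by
    intro i j
    have := Set.ext_iff.1 h (3, i, j, 0)
    simpa [table] using this
  have h4 : ∀ i j, e j = projY (e i) ↔ e' j = projY (e' i) := by
    intro i j
    have := Set.ext_iff.1 h (4, i, j, 0)
    simpa [table] using this
  have h5 : ∀ i j l, e l = tensor (e i) (e j) ↔ e' l = tensor (e' i) (e' j) := by
    intro i j l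
    have := Set.ext_iff.1 h (5, i, j, l)
    simpa [table] using this
  let φ : Set Plane → Set Plane := fun S => if hS : ∃ i, e i = S then e' hS.choose else S
  have key : ∀ i, φ (e i) = e' i := by
    intro i
    have hS : ∃ j, e j = e i := ⟨i, rfl⟩
    simp only [φ, dif_pos hS]
    exact (h0 _ _).1 hS.choose_spec
  refine ⟨φ, ⟨?_, ?_, ?_⟩, ?_, ?_, ?_, ?_, ?_⟩
  · rintro _ ⟨i, rfl⟩
    rw [key]; exact ⟨i, rfl⟩
  · rintro _ ⟨i, rfl⟩ _ ⟨j, rfl⟩ hij
    rw [key, key] at hij
    exact (h0 _ _).2 hij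
  · rintro _ ⟨i, rfl⟩
    exact ⟨e i, ⟨i, rfl⟩, key i⟩
  · rintro _ ⟨i, rfl⟩
    obtain ⟨j, hj⟩ := hF.compl _ ⟨i, rfl⟩
    rw [← hj, key, key]
    exact (h1 _ _).1 hj
  · rintro _ ⟨i, rfl⟩ _ ⟨j, rfl⟩
    obtain ⟨l, hl⟩ := hF.union _ ⟨i, rfl⟩ _ ⟨j, rfl⟩
    rw [← hl, key, key, key]
    exact (h2 _ _ _).1 hl
  · rintro _ ⟨i, rfl⟩
    obtain ⟨j, hj⟩ := hF.projX _ ⟨i, rfl⟩
    rw [← hj, key, key]
    exact (h3 _ _).1 hj
  · rintro _ ⟨i, rfl⟩
    obtain ⟨j, hj⟩ := hF.projY _ ⟨i, rfl⟩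
    rw [← hj, key, key]
    exact (h4 _ _).1 hj
  · rintro _ ⟨i, rfl⟩ _ ⟨j, rfl⟩ hA hB
    obtain ⟨l, hl⟩ := hF.tensor _ ⟨i, rfl⟩ _ ⟨j, rfl⟩ hA hB
    rw [← hl, key, key, key]
    exact (h5 _ _ _).1 hl

theorem KGenerated.countable {k : ℕ} (F : KGenerated k) : F.1.Countable := by
  obtain ⟨S, hS⟩ := F.2
  rw [hS]
  exact gen_countable (countable_range S)

theorem le_card_of_fibres {X Q : Type} (h : X → Q) (κ : Cardinal) (hX : Cardinal.aleph0 ≤ Cardinal.mk X)
    (hκ : κ < Cardinal.mk X) (hfib : ∀ x, Cardinal.mk {y // h y = h x} ≤ κ) :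
    Cardinal.mk X ≤ Cardinal.mk Q := by
  by_contra hcon
  push Not at hcon
  have h1 : Cardinal.mk X = Cardinal.mk (Σ q : Q, {y : X // h y = q}) :=
    Cardinal.mk_congr (Equiv.sigmaFiberEquiv h).symm
  have h2 : Cardinal.mk (Σ q : Q, {y : X // h y = q}) ≤ Cardinal.mk Q * κ := by
    rw [Cardinal.mk_sigma]
    refine (Cardinal.sum_le_sum _ (fun _ => κ) (fun q => ?_)).trans ?_
    · by_cases hq : ∃ x, h x = q
      · obtain ⟨x, rfl⟩ := hq
        exact hfib x
      · have : IsEmpty {y : X // h y = q} := ⟨fun y => hq ⟨y.1, y.2⟩⟩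
        rw [Cardinal.mk_eq_zero]
        exact bot_le
    · simp
  have h3 : Cardinal.mk Q * κ < Cardinal.mk X := Cardinal.mul_lt_of_lt hX hcon hκ
  exact absurd (h1.le.trans h2) (not_le.mpr h3)

/-- For every positive integer `k`, the number of isomorphism classes of projective algebras
generated by `k` subsets of the plane is `2 ^ ℵ₀`. -/
theorem result (k : ℕ) (hk : 1 ≤ k) :
    Cardinal.mk (Quotient (isoSetoid k)) = (2 : Cardinal.{0}) ^ Cardinal.aleph0.{0} := by
  have hset : Cardinal.mk (Set ℕ) = (2 : Cardinal.{0}) ^ Cardinal.aleph0.{0} := by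
    rw [Cardinal.mk_set, Cardinal.mk_nat]
  apply le_antisymm
  · -- upper bound: enumerated algebras are determined by their tables
    have hen : ∀ F : KGenerated k, ∃ e : ℕ → Set Plane, F.1 = range e := by
      intro F
      exact F.countable.exists_eq_range F.isProjAlg.nonempty
    choose e he using hen
    have hinj : Function.Injective (fun q : Quotient (isoSetoid k) => table (e q.out)) := by
      intro q q' hqq
      rw [← Quotient.out_eq q, ← Quotient.out_eq q']
      apply Quotient.sound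
      change Isomorphic q.out.1 q'.out.1
      have hF : IsProjAlg (range (e q.out)) := by
        rw [← he]; exact KGenerated.isProjAlg _
      have := iso_of_table hF hqq
      rwa [← he, ← he] at this
    refine (Cardinal.mk_le_of_injective hinj).trans ?_
    rw [Cardinal.mk_set]
    apply Cardinal.power_le_power_left two_ne_zero
    exact Cardinal.mk_le_aleph0
  · rw [← hset]
    let F : Set ℕ → KGenerated k := fun T =>
      ⟨gen (range (fun _ : Fin k => code T)), fun _ => code T, rfl⟩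
    have hmem : ∀ T, code T ∈ (F T).1 := by
      intro T
      exact subset_gen _ ⟨⟨0, hk⟩, rfl⟩
    refine le_card_of_fibres (fun T => Quotient.mk (isoSetoid k) (F T)) Cardinal.aleph0 ?_ ?_ ?_
    · exact Cardinal.aleph0_le_mk _
    · rw [hset]; exact Cardinal.cantor _
    · intro T
      have hch : ∀ T' : {y // Quotient.mk (isoSetoid k) (F y) = Quotient.mk (isoSetoid k) (F T)},
          ∃ R ∈ (F T).1, decode R = T'.1 := by
        intro T'
        obtain ⟨φ, hφ⟩ : Isomorphic (F T'.1).1 (F T).1 := Quotient.exact T'.2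
        exact ⟨φ (code T'.1), hφ.bij.mapsTo (hmem _), decode_eq hφ (F T'.1).isProjAlg _ (hmem _)⟩
      choose R hR1 hR2 using hch
      have hinj : Function.Injective (fun T' => (⟨R T', hR1 T'⟩ : (F T).1)) := by
        intro T1 T2 h12
        have h2 : R T1 = R T2 := congrArg Subtype.val h12
        apply Subtype.ext
        rw [← hR2 T1, ← hR2 T2, h2]
      refine (Cardinal.mk_le_of_injective hinj).trans ?_
      exact Cardinal.mk_le_aleph0_iff.2 (F T).countable.to_subtype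

end Pool.Agent.Results.MP_71be7b_lc.NumberOfTypes
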